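import Pool.Agent.Helper25.WC.Goals

/-!
# Theorem W (MP_aa1ab3_an), packet AMEN
-/

set_option autoImplicit false

namespace Pool.Agent.Helper66.WC

open scoped InnerProductSpace ComplexConjugate
open Pool.Agent.Helper9.UGap Pool.Agent.Helper25.WC

noncomputable section

universe u

/-! ### The Schur product theorem for Gram matrices -/

section

open scoped ComplexOrder

theorem schur_fin {n E : Type*} [Fintype n] [NormedAddCommGroup E] [InnerProductSpace ℂ E]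
    (v : n → E) (c : n → ℝ) : 0 ≤ ∑ i, ∑ j, c i * c j * ‖⟪v i, v j⟫_ℂ‖ ^ 2 := by
  have hA := Matrix.posSemidef_gram ℂ v
  have hB := hA.transpose
  have hM := (hA.hadamard hB).dotProduct_mulVec_nonneg (fun i => (c i : ℂ))
  have e : star (fun i => (c i : ℂ)) ⬝ᵥ
      ((Matrix.hadamard (Matrix.gram ℂ v) (Matrix.gram ℂ v).transpose).mulVec
        (fun i => (c i : ℂ))) =
      ((∑ i, ∑ j, c i * c j * ‖⟪v i, v j⟫_ℂ‖ ^ 2 : ℝ) : ℂ) := by
    simp only [dotProduct, Matrix.mulVec, Matrix.hadamard_apply, Matrix.transpose_apply,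
      Matrix.gram_apply, Pi.star_apply]
    push_cast
    refine Finset.sum_congr rfl fun i _ => ?_
    rw [Finset.mul_sum]
    refine Finset.sum_congr rfl fun j _ => ?_
    have h1 : ⟪v i, v j⟫_ℂ * ⟪v j, v i⟫_ℂ = ((‖⟪v i, v j⟫_ℂ‖ : ℂ)) ^ 2 := by
      rw [← inner_conj_symm (v j) (v i), RCLike.mul_conj]
      rfl
    rw [h1]
    simp only [RCLike.star_def, Complex.conj_ofReal]
    ring
  rw [e] at hM
  exact_mod_cast hM

end

theorem schur {ι E : Type*} [NormedAddCommGroup E] [InnerProductSpace ℂ E] (s : Finset ι)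
    (v : ι → E) (c : ι → ℝ) :
    0 ≤ ∑ i ∈ s, ∑ j ∈ s, c i * c j * ‖⟪v i, v j⟫_ℂ‖ ^ 2 := by
  have h := schur_fin (fun i : s => v i.1) (fun i : s => c i.1)
  rw [← Finset.sum_coe_sort]
  refine h.trans_eq (Finset.sum_congr rfl fun i _ => ?_)
  exact Finset.sum_coe_sort s fun j => c i * c j * ‖⟪v i, v j⟫_ℂ‖ ^ 2

variable {G : Type u} [Group G] [DecidableEq G]

/-- the basis vectors -/
def e (h : G) : lp (fun _ : G => ℂ) 2 := lp.single 2 h (1 : ℂ)

theorem e_one : e (1 : G) = dl := rfl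

omit [Group G] in
theorem inner_e (h : G) (f : lp (fun _ : G => ℂ) 2) : ⟪e h, f⟫_ℂ = f h := by
  unfold e
  rw [lp.inner_single_left]
  simp

/-- (1) invariance -/
theorem inv_inner {S T : lp (fun _ : G => ℂ) 2 →L[ℂ] lp (fun _ : G => ℂ) 2} (hS : InL S)
    (hT : InL T) (a b g : G) :
    ⟪S (e (a * g)), T (e (b * g))⟫_ℂ = ⟪S (e a), T (e b)⟫_ℂ := by
  rw [lp.inner_eq_tsum, lp.inner_eq_tsum, ← (Equiv.mulRight g).tsum_eq]
  refine tsum_congr fun h => ?_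
  show ⟪(S (lp.single 2 (a * g) (1 : ℂ))) (h * g), (T (lp.single 2 (b * g) (1 : ℂ))) (h * g)⟫_ℂ =
    ⟪(S (lp.single 2 a (1 : ℂ))) h, (T (lp.single 2 b (1 : ℂ))) h⟫_ℂ
  rw [hS.single, hT.single, hS.single, hT.single]
  congr 2
  · group
  · group

section

variable (φ : FreeGroup (Fin 2) →* ↥(unitary (lp (fun _ : G => ℂ) 2 →L[ℂ] lp (fun _ : G => ℂ) 2)))
  (f : FreeGroup (Fin 2) →* FreeGroup (Fin 2))
  (x : lp (fun _ : G => ℂ) 2 →L[ℂ] lp (fun _ : G => ℂ) 2)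

/-- one coefficient -/
def cf (w : FF) (h : G) : ℝ := ‖⟪x (e h), U φ (f w) (x dl)⟫_ℂ‖ ^ 2

/-- the function `φ_Q` -/
def ph (q : Finset G) (w : FF) : ℝ := ∑ h ∈ q, cf φ f x w h

variable {φ} {x}

omit [Group G] [DecidableEq G] in
theorem move (w : F2) (y z : lp (fun _ : G => ℂ) 2) :
    ⟪U φ w y, z⟫_ℂ = ⟪y, U φ w⁻¹ z⟫_ℂ := by
  rw [inner_star, U_star]

variable (hL : ∀ w, InL (φ w).1) (hx : InL x)
include hL hx

theorem cf_gen (k l : FF) (a b : G) :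
    ‖⟪U φ (f k) (x (e a)), U φ (f l) (x (e b))⟫_ℂ‖ ^ 2 = cf φ f x (k⁻¹ * l) (a * b⁻¹) := by
  unfold cf
  have h1 : ⟪U φ (f k) (x (e a)), U φ (f l) (x (e b))⟫_ℂ =
      ⟪x (e a), U φ (f (k⁻¹ * l)) (x (e b))⟫_ℂ := by
    rw [move, ← mul_app, ← U_mul, map_mul, map_inv]
  have hT : InL (U φ (f (k⁻¹ * l)) * x) := InL.mul (hL _) hx
  have h2 := inv_inner hx hT (a * b⁻¹) 1 b
  rw [inv_mul_cancel_right, one_mul] at h2
  rw [h1]
  have h3 : ⟪x (e a), U φ (f (k⁻¹ * l)) (x (e b))⟫_ℂ =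
      ⟪x (e (a * b⁻¹)), U φ (f (k⁻¹ * l)) (x dl)⟫_ℂ := h2
  rw [h3]

theorem cf_inv (w : FF) (h : G) : cf φ f x w⁻¹ h = cf φ f x w h⁻¹ := by
  have h1 := cf_gen f hL hx w 1 h 1
  have h2 := cf_gen f hL hx 1 w 1 h
  rw [mul_one, inv_one, mul_one] at h1
  rw [inv_one, one_mul, one_mul] at h2
  rw [← h1, ← h2]
  rw [norm_inner_symm]

variable {q : Finset G} (h1q : (1 : G) ∈ q) (hmq : ∀ a ∈ q, ∀ b ∈ q, a * b ∈ q)
  (hiq : ∀ a ∈ q, a⁻¹ ∈ q)

include hiq in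
theorem ph_inv (w : FF) : ph φ f x q w⁻¹ = ph φ f x q w := by
  unfold ph
  refine Finset.sum_nbij' (fun h => h⁻¹) (fun h => h⁻¹) (fun a ha => hiq a ha)
    (fun a ha => hiq a ha) (fun a _ => inv_inv a) (fun a _ => inv_inv a) fun a _ => ?_
  exact cf_inv f hL hx w a

include hmq hiq in
theorem ph_card (k l : FF) :
    ∑ b ∈ q, ∑ a ∈ q, ‖⟪U φ (f k) (x (e a)), U φ (f l) (x (e b))⟫_ℂ‖ ^ 2 =
      q.card * ph φ f x q (k⁻¹ * l) := by
  have h1 : ∀ b ∈ q, ∑ a ∈ q, ‖⟪U φ (f k) (x (e a)), U φ (f l) (x (e b))⟫_ℂ‖ ^ 2 =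
      ph φ f x q (k⁻¹ * l) := by
    intro b hb
    unfold ph
    refine Finset.sum_nbij' (fun a => a * b⁻¹) (fun a => a * b)
      (fun a ha => hmq a ha _ (hiq b hb)) (fun a ha => hmq a ha b hb)
      (fun a _ => inv_mul_cancel_right a b) (fun a _ => mul_inv_cancel_right a b) fun a _ => ?_
    exact cf_gen f hL hx k l a b
  rw [Finset.sum_congr rfl h1, Finset.sum_const, nsmul_eq_mul]

include h1q hmq hiq in
theorem ph_pos (a : A) : 0 ≤ Bf (ph φ f x q) a a := by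
  have hB : Bf (ph φ f x q) a a =
      ∑ k ∈ a.support, ∑ l ∈ a.support, a k * a l * ph φ f x q (k⁻¹ * l) := by
    simp only [Bf, Finsupp.linearCombination_apply, Finsupp.sum, LinearMap.sum_apply,
      LinearMap.smul_apply, smul_eq_mul, Finset.mul_sum]
    refine Finset.sum_congr rfl fun k _ => Finset.sum_congr rfl fun l _ => ?_
    ring
  have h := schur (a.support ×ˢ q) (fun i : FF × G => U φ (f i.1) (x (e i.2)))
    (fun i => a i.1)
  have hs : ∑ i ∈ a.support ×ˢ q, ∑ j ∈ a.support ×ˢ q,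
      a i.1 * a j.1 * ‖⟪U φ (f i.1) (x (e i.2)), U φ (f j.1) (x (e j.2))⟫_ℂ‖ ^ 2 =
      q.card * Bf (ph φ f x q) a a := by
    rw [hB, Finset.sum_product, Finset.mul_sum]
    refine Finset.sum_congr rfl fun k _ => ?_
    have h2 : ∀ g ∈ q, ∑ j ∈ a.support ×ˢ q,
        a (k, g).1 * a j.1 * ‖⟪U φ (f (k, g).1) (x (e (k, g).2)),
          U φ (f j.1) (x (e j.2))⟫_ℂ‖ ^ 2 =
        ∑ l ∈ a.support, ∑ b ∈ q, a k * a l * ‖⟪U φ (f k) (x (e g)),
          U φ (f l) (x (e b))⟫_ℂ‖ ^ 2 := by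
      intro g _
      rw [Finset.sum_product]
    rw [Finset.sum_congr rfl h2, Finset.sum_comm, Finset.mul_sum]
    refine Finset.sum_congr rfl fun l _ => ?_
    rw [Finset.sum_comm]
    have h3 := ph_card f hL hx hmq hiq k l
    calc ∑ b ∈ q, ∑ g ∈ q, a k * a l * ‖⟪U φ (f k) (x (e g)), U φ (f l) (x (e b))⟫_ℂ‖ ^ 2
        = a k * a l * ∑ b ∈ q, ∑ g ∈ q,
            ‖⟪U φ (f k) (x (e g)), U φ (f l) (x (e b))⟫_ℂ‖ ^ 2 := by
          rw [Finset.mul_sum]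
          refine Finset.sum_congr rfl fun b _ => ?_
          rw [Finset.mul_sum]
      _ = _ := by
          rw [h3]
          ring
  rw [hs] at h
  have hc : (0 : ℝ) < q.card := by
    have : 0 < q.card := Finset.card_pos.2 ⟨1, h1q⟩
    exact_mod_cast this
  exact nonneg_of_mul_nonneg_right h hc

end

/-- (4) summable -/
theorem ph_sum (φ : FreeGroup (Fin 2) →*
      ↥(unitary (lp (fun _ : G => ℂ) 2 →L[ℂ] lp (fun _ : G => ℂ) 2)))
    {f : FreeGroup (Fin 2) →* FreeGroup (Fin 2)}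
    {x : lp (fun _ : G => ℂ) 2 →L[ℂ] lp (fun _ : G => ℂ) 2} (hx : InL x) (hx0 : x dl ≠ 0)
    (ho : ∀ w, w ≠ 1 → ⟪x dl, U φ (f w) (x dl)⟫_ℂ = 0) (q : Finset G) (F : Finset FF) :
    ∑ w ∈ F, ph φ f x q w ≤ q.card * (‖x dl‖ ^ 2 * ‖x dl‖ ^ 2) := by
  have hn : 0 < ‖x dl‖ := norm_pos_iff.2 hx0
  unfold ph
  rw [Finset.sum_comm]
  have hv : Orthonormal ℂ (fun w : FF => ((‖x dl‖⁻¹ : ℝ) : ℂ) • U φ (f w) (x dl)) := by
    constructor
    · intro w
      rw [norm_smul, U_norm_apply, Complex.norm_real, norm_inv, norm_norm]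
      exact inv_mul_cancel₀ hn.ne'
    · intro k l hkl
      show ⟪((‖x dl‖⁻¹ : ℝ) : ℂ) • U φ (f k) (x dl), ((‖x dl‖⁻¹ : ℝ) : ℂ) • U φ (f l) (x dl)⟫_ℂ = 0
      rw [inner_smul_left, inner_smul_right, move, ← mul_app, ← U_mul, ← map_inv, ← map_mul,
        ho (k⁻¹ * l) (fun h => hkl (inv_mul_eq_one.1 h)), mul_zero, mul_zero]
  have h1 : ∀ h ∈ q, ∑ w ∈ F, cf φ f x w h ≤ ‖x dl‖ ^ 2 * ‖x dl‖ ^ 2 := by
    intro h _
    have h2 := hv.sum_inner_products_le (x := x (e h)) (s := F)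
    have h3 : ‖x (e h)‖ = ‖x dl‖ := hx.norm_single h
    rw [h3] at h2
    have h4 : ∑ w ∈ F, cf φ f x w h = ‖x dl‖ ^ 2 * ∑ w ∈ F,
        ‖⟪((‖x dl‖⁻¹ : ℝ) : ℂ) • U φ (f w) (x dl), x (e h)⟫_ℂ‖ ^ 2 := by
      rw [Finset.mul_sum]
      refine Finset.sum_congr rfl fun w _ => ?_
      unfold cf
      rw [inner_smul_left, norm_mul, RCLike.norm_conj, Complex.norm_real, norm_inv, norm_norm,
        norm_inner_symm, mul_pow, ← mul_assoc, ← mul_pow, mul_inv_cancel₀ hn.ne', one_pow,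
        one_mul]
    rw [h4]
    exact mul_le_mul_of_nonneg_left h2 (by positivity)
  refine (Finset.sum_le_sum h1).trans_eq ?_
  rw [Finset.sum_const, nsmul_eq_mul]

/-- (6) the sum over the whole group -/
theorem cf_sum {φ : FreeGroup (Fin 2) →*
      ↥(unitary (lp (fun _ : G => ℂ) 2 →L[ℂ] lp (fun _ : G => ℂ) 2))}
    (hL : ∀ w, InL (φ w).1) {f : FreeGroup (Fin 2) →* FreeGroup (Fin 2)}
    {x : lp (fun _ : G => ℂ) 2 →L[ℂ] lp (fun _ : G => ℂ) 2} (hx : InL x)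
    (hc : ∀ w, cj φ (f w) x = x) (w : FF) :
    HasSum (cf φ f x w) (‖(star x * x) dl‖ ^ 2) := by
  have hU : U φ (f w) * x = x * U φ (f w) := by
    calc U φ (f w) * x = (U φ (f w) * x * U φ (f w)⁻¹) * U φ (f w) := by
          rw [mul_assoc, U_inv_mul, mul_one]
      _ = x * U φ (f w) := by
          have := hc w
          unfold cj at this
          rw [this]
  set y : lp (fun _ : G => ℂ) 2 := (star x * x) (U φ (f w) dl) with hy
  have h1 : ∀ h : G, cf φ f x w h = ‖y h‖ ^ 2 := by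
    intro h
    unfold cf
    have e1 : U φ (f w) (x dl) = x (U φ (f w) dl) := by
      have := congrArg (fun T : lp (fun _ : G => ℂ) 2 →L[ℂ] lp (fun _ : G => ℂ) 2 => T dl) hU
      simpa only [mul_app] using this
    rw [inner_star, e1]
    have e2 : (star x) (x (U φ (f w) dl)) = y := rfl
    rw [e2, inner_e]
  have hP : ∀ w, InL (U φ w) ∧ InL (star (U φ w)) := fun w => ⟨hL w, by
    rw [U_star]; exact hL w⁻¹⟩
  have hsx := Pool.Agent.Helper49.DW.Op.InL_star hx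
  have hZ : InL (star x * x) ∧ InL (star (star x * x)) := by
    refine ⟨hsx.mul hx, ?_⟩
    rw [star_mul, star_star]
    exact hsx.mul hx
  have h2 : ‖y‖ = ‖(star x * x) dl‖ :=
    norm_mul_U φ (std_LG (G := G)) hP (Z := star x * x) hZ (f w)
  have h3 := lp.hasSum_norm (E := fun _ : G => ℂ) (p := 2) (by norm_num) y
  have h4 : (2 : ENNReal).toReal = ((2 : ℕ) : ℝ) := by norm_num
  rw [h4] at h3
  simp only [Real.rpow_natCast] at h3
  rw [← h2]
  exact h3.congr_fun h1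

theorem amen : AMEN.{u} := by
  intro G _ _ φ hfin hL K hK x hx hx0 hc ho
  obtain ⟨f, hf, hfK⟩ := hK.embed
  have ho' : ∀ w, w ≠ 1 → ⟪x dl, U φ (f w) (x dl)⟫_ℂ = 0 := fun w hw =>
    ho (f w) (hfK w) fun h => hw (hf (by rw [h, map_one]))
  have hc' : ∀ w, cj φ (f w) x = x := fun w => hc (f w) (hfK w)
  have hsum := fun w => cf_sum hL (f := f) hx hc' w
  set c : ℝ := ‖(star x * x) dl‖ ^ 2 with hcdef
  have hcpos : 0 < c := by
    rw [hcdef]
    have h1 : (star x * x) dl ≠ 0 := by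
      intro h
      have h2 : ⟪x dl, x dl⟫_ℂ = 0 := by
        rw [inner_star]
        have h3 : (star x) (x dl) = 0 := h
        rw [h3, inner_zero_right]
      exact hx0 (inner_self_eq_zero.1 h2)
    have := norm_pos_iff.2 h1
    positivity
  have h0 : ∀ w h, 0 ≤ cf φ f x w h := fun w h => by
    unfold cf
    positivity
  -- finite sets
  have hA : ∀ w, ∃ A : Finset G, ∀ q : Finset G, A ⊆ q → c - c / 64 < ph φ f x q w := by
    intro w
    have h1 := (hsum w).eventually (Ioi_mem_nhds (show c - c / 64 < c by linarith))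
    rw [SummationFilter.unconditional_filter, Filter.eventually_atTop] at h1
    obtain ⟨A, hA⟩ := h1
    exact ⟨A, fun q hq => hA q hq⟩
  obtain ⟨A0, hA0⟩ := hA (FreeGroup.of 0)
  obtain ⟨A1, hA1⟩ := hA (FreeGroup.of 1)
  obtain ⟨Q, hQf, hQ⟩ := hfin (A0 ∪ A1)
  have hQf' : (Q : Set G).Finite := hQf
  set q : Finset G := hQf'.toFinset with hq
  have hmem : ∀ a, a ∈ q ↔ a ∈ Q := fun a => by
    rw [hq, Set.Finite.mem_toFinset]
    rfl
  have h1q : (1 : G) ∈ q := (hmem 1).2 Q.one_mem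
  have hmq : ∀ a ∈ q, ∀ b ∈ q, a * b ∈ q := fun a ha b hb =>
    (hmem _).2 (Q.mul_mem ((hmem a).1 ha) ((hmem b).1 hb))
  have hiq : ∀ a ∈ q, a⁻¹ ∈ q := fun a ha => (hmem _).2 (Q.inv_mem ((hmem a).1 ha))
  have k := kesten (ph φ f x q) (fun w => Finset.sum_nonneg fun h _ => h0 w h)
    (fun w => ph_inv f hL hx hiq w) (fun a => ph_pos f hL hx h1q hmq hiq a)
    (q.card * (‖x dl‖ ^ 2 * ‖x dl‖ ^ 2)) (fun F => ph_sum φ hx hx0 ho' q F)
  have k0 := hA0 q fun a ha => (hmem a).2 (hQ a (Finset.mem_union_left _ ha))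
  have k1 := hA1 q fun a ha => (hmem a).2 (hQ a (Finset.mem_union_right _ ha))
  have k2 : ph φ f x q 1 ≤ c := sum_le_hasSum q (fun h _ => h0 1 h) (hsum 1)
  linarith

end

end Pool.Agent.Helper66.WC
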